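import Pool.Agent.H89.INS.DI
import Pool.Agent.H7.NC.Herm

/-!
# A *-regular ring which is not directly finite
-/

set_option autoImplicit false

namespace Pool.Agent.Results.MP_7249a2_al.DirectlyInfinite

/-- `s` is an involution on the ring `R`. -/
structure IsInvolution {R : Type} [Ring R] (s : R → R) : Prop where
  add : ∀ x y, s (x + y) = s x + s y
  mul : ∀ x y, s (x * y) = s y * s x
  invol : ∀ x, s (s x) = x

/-- The ring `R` with the map `s` is a *-regular ring: `R` is von Neumann regular, `s` is an
involution which is proper, and (what is equivalent) every principal right ideal of `R` is generated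
by a projection. -/
structure IsStarRegular {R : Type} [Ring R] (s : R → R) : Prop where
  regular : ∀ a : R, ∃ x : R, a * x * a = a
  involution : IsInvolution s
  proper : ∀ x : R, s x * x = 0 → x = 0
  projection : ∀ a : R, ∃ p : R, p * p = p ∧ s p = p ∧
    ∀ z : R, (∃ r : R, z = a * r) ↔ ∃ r : R, z = p * r

/-- There is a *-regular ring `R` which is not directly finite: `x y = 1` and `y x ≠ 1` for some
`x, y`; in particular `R` is not unit-regular: for some `a` there is no unit `u` with
`a u a = a`. -/
theorem result : ∃ (R : Type) (_ : Ring R) (s : R → R), IsStarRegular s ∧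
    (∃ x y : R, x * y = 1 ∧ y * x ≠ 1) ∧
    ∃ a : R, ∀ u v : R, u * v = 1 → v * u = 1 → a * u * a ≠ a := by
  obtain ⟨R, i1, i2, h1, h2, ⟨x, y, hxy, hyx⟩, _⟩ :=
    Pool.Agent.H89.INS.exists_ring_di (Filter.hyperfilter ℕ : Filter ℕ) Nat.hyperfilter_le_atTop
  refine ⟨R, i1, star, ⟨h1, ⟨star_add, star_mul, star_star⟩, h2, fun a => ?_⟩, ⟨x, y, hxy, hyx⟩,
    y, fun u v huv hvu e => ?_⟩
  · obtain ⟨b, hb1, hb2, hb3, hb4⟩ := Pool.Agent.H7.NC.exists_isMP h1 h2 a
    refine ⟨a * b, by rw [← mul_assoc, hb1], hb3, fun z => ⟨?_, ?_⟩⟩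
    · rintro ⟨r, rfl⟩
      exact ⟨a * r, by rw [← mul_assoc, hb1]⟩
    · rintro ⟨r, rfl⟩
      exact ⟨b * r, by rw [mul_assoc]⟩
  · -- `u y = 1`, so `y` is the inverse of `u`
    have h3 : u * y = 1 := by
      calc u * y = (x * y) * (u * y) := by rw [hxy, one_mul]
        _ = x * (y * u * y) := by simp only [mul_assoc]
        _ = 1 := by rw [e, hxy]
    have h4 : y = v := by
      calc y = (v * u) * y := by rw [hvu, one_mul]
        _ = v * (u * y) := by rw [mul_assoc]
        _ = v := by rw [h3, mul_one]
    have h5 : x = u := by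
      calc x = x * (v * u) := by rw [hvu, mul_one]
        _ = (x * y) * u := by rw [h4, mul_assoc]
        _ = u := by rw [hxy, one_mul]
    exact hyx (by rw [h4, h5, hvu])

end Pool.Agent.Results.MP_7249a2_al.DirectlyInfinite
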